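import Pool.Agent.E8T5Q.Q12
import Pool.Agent.E8T5G.C625

/-!
# [E8T5Q-LAW] the quintic law for all primes `p ≡ 4 mod 5`
-/

set_option autoImplicit false

namespace E8T5Q

/-- the quintic law: proved in `Pool.Agent.E8T5G` for the unit `ζ⁴ (1 + ζ⁴ θ³ - ζ² θ⁴)` -/
theorem lawG : LawG := by
  intro p hp h4 K _ hK s θ ζ hs t5 tp z5 z1
  have h := E8T5G.final hp (by omega) hK hs z5 z1 t5 tp
  have hz0 : ζ ≠ 0 := by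
    rintro rfl
    rw [zero_pow (by norm_num)] at z5
    exact zero_ne_one z5
  obtain ⟨n, hn⟩ : ∃ n, n = (p + 1) / 5 := ⟨_, rfl⟩
  have hp1 : p - 1 = 5 * (n - 1) + 3 := by
    have := hp.two_le
    omega
  have hb : (ζ ^ 4) ^ ((p ^ 2 - 1) / 5) = ζ ^ (2 * n) := by
    rw [(q9_dvd h4).2, ← hn, ← pow_mul, hp1,
      show 4 * ((5 * (n - 1) + 3) * n) = 5 * (4 * (n - 1) * n + 2 * n) + 2 * n by ring, pow_add,
      pow_mul ζ 5, z5, one_pow, one_mul]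
  have hu : ζ ^ 4 + ζ ^ 3 * θ ^ 3 - ζ * θ ^ 4 = ζ ^ 4 * (1 + ζ ^ 4 * θ ^ 3 - ζ ^ 2 * θ ^ 4) := by
    linear_combination (ζ * θ ^ 4 - ζ ^ 3 * θ ^ 3) * z5
  rw [hu, mul_pow, hb] at h
  rw [← hn]
  refine mul_left_cancel₀ (pow_ne_zero (2 * n) hz0) ?_
  calc ζ ^ (2 * n) * (1 + ζ ^ 4 * θ ^ 3 - ζ ^ 2 * θ ^ 4) ^ ((p ^ 2 - 1) / 5) = ζ ^ E8T5.Nf p s := h
    _ = ζ ^ E8T5.Nf p s * (ζ ^ 5) ^ n := by rw [z5, one_pow, mul_one]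
    _ = ζ ^ (2 * n) * ζ ^ (E8T5.Nf p s + 3 * n) := by ring

end E8T5Q
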