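import Pool.Agent.E8T5Q.Q9
import Pool.Agent.T5X.B8

/-!
# [E8T5Q-Q10] consequences of the quintic law; two explicit primes
-/

set_option autoImplicit false

open E8X (tau)
open Pool.Agent.MP130199 (IsDesign)

namespace E8T5Q

section

variable {K : Type} [Field K] {p : ℕ}

theorem q10_root (hp : p.Prime) (h4 : p % 5 = 4) (hK : Nat.card K = p ^ 2) :
    ∃ ζ : K, ζ ^ 5 = 1 ∧ ζ ≠ 1 := by
  classical
  have := Fact.mk Nat.prime_five
  have := q9_fin hp hK
  let _ : Fintype K := Fintype.ofFinite K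
  have hc : Fintype.card Kˣ = p ^ 2 - 1 := by
    rw [Fintype.card_units, ← Nat.card_eq_fintype_card, hK]
  obtain ⟨u, hu⟩ := exists_prime_orderOf_dvd_card (G := Kˣ) 5 (by
    rw [hc]
    exact ⟨_, by rw [mul_comm]; exact (q9_dvd h4).1.symm⟩)
  refine ⟨u, ?_, ?_⟩
  · rw [← Units.val_pow_eq_pow_val, ← hu, pow_orderOf_eq_one, Units.val_one]
  · intro h
    have : u = 1 := Units.ext h
    rw [this, orderOf_one] at hu
    norm_num at hu

/-- a root of `x⁵ = 5` in the prime field -/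
theorem q10_theta (hp : p.Prime) (h4 : p % 5 = 4) (hK : Nat.card K = p ^ 2) :
    ∃ θ : K, θ ^ 5 = 5 ∧ θ ^ p = θ := by
  have h5p : (5 : K) ^ p = 5 := by
    have h := q9_nat hp hK 5
    exact_mod_cast h
  obtain ⟨m, hm⟩ : ∃ m, p = 5 * m + 4 := ⟨p / 5, by omega⟩
  refine ⟨5 ^ (3 * m + 2), ?_, ?_⟩
  · have h5 := q9_five hp h4 hK
    have h1 : (5 : K) ^ (p - 1) = 1 := by
      refine mul_right_cancel₀ h5 ?_
      rw [← pow_succ, Nat.sub_add_cancel hp.one_le, h5p, one_mul]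
    rw [← pow_mul, show (3 * m + 2) * 5 = (p - 1) * 3 + 1 by omega, pow_add, pow_mul, h1, one_pow, one_mul,
      pow_one]
  · rw [← pow_mul, mul_comm, pow_mul, h5p]

theorem q10_fifth (hp : p.Prime) (h4 : p % 5 = 4) (hK : Nat.card K = p ^ 2) {a : K} (ha : a ≠ 0) :
    (∃ y, y ^ 5 = a) ↔ a ^ ((p ^ 2 - 1) / 5) = 1 := by
  constructor
  · rintro ⟨y, rfl⟩
    have hy : y ≠ 0 := by
      rintro rfl
      exact ha (zero_pow (by norm_num))
    rw [← pow_mul, mul_comm, (q9_dvd h4).1, q9_pow hp hK hy]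
  · intro h
    classical
    have := q9_fin hp hK
    let _ : Fintype K := Fintype.ofFinite K
    obtain ⟨g, hg⟩ := IsCyclic.exists_generator (α := Kˣ)
    obtain ⟨m, hm'⟩ := hg (Units.mk0 a ha)
    have hm : g ^ m = Units.mk0 a ha := hm'
    have hc : orderOf g = p ^ 2 - 1 := by
      rw [orderOf_eq_card_of_forall_mem_zpowers hg, Nat.card_eq_fintype_card, Fintype.card_units,
        ← Nat.card_eq_fintype_card, hK]
    have h1 : g ^ (m * (((p ^ 2 - 1) / 5 : ℕ) : ℤ)) = 1 := by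
      rw [zpow_mul, hm, zpow_natCast]
      apply Units.ext
      rw [Units.val_pow_eq_pow_val, Units.val_mk0, Units.val_one, h]
    rw [← orderOf_dvd_iff_zpow_eq_one, hc] at h1
    have h2 : (p ^ 2 - 1) = (p ^ 2 - 1) / 5 * 5 := (q9_dvd h4).1.symm
    have h3 : 0 < (p ^ 2 - 1) / 5 := by
      have : 2 ≤ p := hp.two_le
      have : 4 ≤ p ^ 2 := by nlinarith
      rcases Nat.eq_zero_or_pos ((p ^ 2 - 1) / 5) with h | h
      · rw [h] at h2
        omega
      · exact h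
    have h4 : (5 : ℤ) ∣ m := by
      obtain ⟨c, hc⟩ := h1
      refine ⟨c, ?_⟩
      have h5 : ((p ^ 2 - 1 : ℕ) : ℤ) = ((p ^ 2 - 1) / 5 : ℕ) * 5 := by exact_mod_cast h2
      rw [h5] at hc
      have h6 : (((p ^ 2 - 1) / 5 : ℕ) : ℤ) ≠ 0 := by exact_mod_cast h3.ne'
      refine mul_left_cancel₀ h6 ?_
      linear_combination hc
    obtain ⟨n, rfl⟩ := h4
    refine ⟨((g ^ n : Kˣ) : K), ?_⟩
    have h5 : (g ^ n) ^ 5 = Units.mk0 a ha := by
      rw [← hm, ← zpow_natCast, ← zpow_mul]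
      congr 1
      push_cast
      ring
    rw [← Units.val_pow_eq_pow_val, h5, Units.val_mk0]

/-- `x^(p-1)` for `x⁵ = 5` -/
theorem q10_pow (hp : p.Prime) (h4 : p % 5 = 4) (hK : Nat.card K = p ^ 2) {x : K} (hx : x ^ 5 = 5) :
    (x ^ (p - 1)) ^ 5 = 1 := by
  have h5 := q9_five hp h4 hK
  have h5p : (5 : K) ^ p = 5 := by
    have h := q9_nat hp hK 5
    exact_mod_cast h
  rw [← pow_mul, mul_comm, pow_mul, hx]
  refine mul_right_cancel₀ h5 ?_
  rw [← pow_succ, Nat.sub_add_cancel hp.one_le, h5p, one_mul]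

theorem q10_mod (hp : p.Prime) (h4 : p % 5 = 4) (hK : Nat.card K = p ^ 2) {x : K} (hx : x ^ 5 = 5)
    {a b : ℕ} (h : a % 5 = b % 5) : x ^ ((p - 1) * a) = x ^ ((p - 1) * b) := by
  have h1 := q10_pow hp h4 hK hx
  have h2 : ∀ a : ℕ, x ^ ((p - 1) * a) = x ^ ((p - 1) * (a % 5)) := by
    intro a
    conv_lhs => rw [← Nat.div_add_mod a 5]
    rw [mul_add, pow_add, show (p - 1) * (5 * (a / 5)) = (p - 1) * 5 * (a / 5) by ring, pow_mul, pow_mul x, h1,
      one_pow, one_mul]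
  rw [h2 a, h2 b, h]

/-- the fifth power criterion -/
theorem q10_crit (H : Law) (hp : p.Prime) (h25 : 25 ∣ p + 1) (hK : Nat.card K = p ^ 2) {s : K}
    (hs : s ^ 2 = 5) : 5 ∣ E8T5.Nf p s ↔ ∀ x : K, x ^ 5 = 5 → ∃ y, y ^ 5 = x ^ 2 - 5 * x + 5 := by
  constructor
  · intro h x hx
    rw [q10_fifth hp (q9_mod h25) hK (q9_f_ne hp (q9_mod h25) hK hx)]
    have h1 := q9_law H hp h25 hK hs hx
    rwa [q10_mod hp (q9_mod h25) hK hx (show E8T5.Nf p s % 5 = 0 % 5 by omega), mul_zero, pow_zero, mul_one] at h1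
  · intro h
    obtain ⟨θ, t5, tp⟩ := q10_theta (K := K) hp (q9_mod h25) hK
    obtain ⟨ζ, z5, z1⟩ := q10_root (K := K) hp (q9_mod h25) hK
    have h5 := q9_five hp (q9_mod h25) hK
    have hθ0 : θ ≠ 0 := by
      rintro rfl
      apply h5
      rw [← t5, zero_pow (by norm_num)]
    have hz0 : ζ ≠ 0 := by
      rintro rfl
      rw [zero_pow (by norm_num)] at z5
      exact zero_ne_one z5
    have hx : (ζ * θ) ^ 5 = 5 := by rw [mul_pow, z5, t5, one_mul]
    have h1 := q9_law H hp h25 hK hs hx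
    have h2 := (q10_fifth hp (q9_mod h25) hK (q9_f_ne hp (q9_mod h25) hK hx)).1 (h _ hx)
    rw [h2, one_mul] at h1
    have hd : (ζ * θ) ^ (p - 1) = ζ ^ 3 := by
      refine mul_right_cancel₀ (mul_ne_zero hz0 hθ0) ?_
      rw [← pow_succ, Nat.sub_add_cancel hp.one_le, mul_pow, tp]
      obtain ⟨k, hk⟩ := h25
      have hzp : ζ ^ (p + 1) = 1 := by
        rw [hk, show 25 * k = 5 * (5 * k) by ring, pow_mul, z5, one_pow]
      have hzp' : ζ ^ p = ζ ^ 4 := by
        refine mul_right_cancel₀ hz0 ?_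
        rw [← pow_succ, hzp, ← pow_succ, z5]
      rw [hzp']
      ring
    rw [pow_mul, hd, ← pow_mul] at h1
    have := Fact.mk Nat.prime_five
    have h3 : orderOf ζ = 5 := orderOf_eq_prime z5 z1
    have h4 := orderOf_dvd_of_pow_eq_one h1
    rw [h3] at h4
    exact (Nat.Coprime.dvd_of_dvd_mul_left (by norm_num) h4)

end

/-- the test for the primes with `τ(p) = 0` -/
theorem q10_zero (H : Law) {p : ℕ} (hp : p.Prime) (h0 : tau p = 0) : ∃ w : ℕ, p + 1 = 5 ^ 3 * w ∧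
    ∀ (K : Type) [Field K], Nat.card K = p ^ 2 →
      (∀ s : K, s ^ 2 = 5 → E8T5.Nf p s % 5 = w % 5) ∧
      ∀ x : K, x ^ 5 = 5 → (x ^ 2 - 5 * x + 5) ^ ((p ^ 2 - 1) / 5) * x ^ ((p - 1) * w) = 1 := by
  obtain ⟨h4, z, hz, -⟩ := T5X.prime_cond5 hp h0
  obtain ⟨w, rfl⟩ := Int.eq_ofNat_of_zero_le (show 0 ≤ z by omega)
  have hw : p + 1 = 125 * w := by exact_mod_cast hz
  have h25 : 25 ∣ p + 1 := ⟨5 * w, by rw [hw]; ring⟩
  refine ⟨w, by rw [hw]; norm_num, ?_⟩
  intro K _ hK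
  have hN : ∀ s : K, s ^ 2 = 5 → E8T5.Nf p s % 5 = w % 5 := by
    intro s hs
    have h := (E8T5.tau_law_125 hp ⟨w, hw⟩ hK hs).2.1 (by rw [h0]; exact dvd_zero _)
    rwa [hw, Nat.mul_div_cancel_left w (by norm_num)] at h
  refine ⟨hN, ?_⟩
  intro x hx
  obtain ⟨s, hs⟩ := q9_s (K := K) hp (q9_mod h25) hK
  have h := q9_law H hp h25 hK hs hx
  rwa [q10_mod hp (q9_mod h25) hK hx (hN s hs)] at h

/-- the classical conditions for one prime -/
theorem q10_class {q : ℕ} (hq : q.Prime) (h0 : tau q = 0) : 2 ^ 14 * 3 ^ 7 * 5 ^ 3 * 691 ∣ q + 1 := by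
  obtain ⟨z, hz, -⟩ := E8X.prime_cond hq h0
  obtain ⟨-, y, hy, -⟩ := E8T.prime_cond7 hq h0
  obtain ⟨-, x, hx, -⟩ := T5X.prime_cond5 hq h0
  have h4 := T5X.prime_cond691 hq h0
  have h1 : (2 ^ 14 : ℤ) ∣ ((q + 1 : ℕ) : ℤ) := by
    push_cast
    rw [hz]
    exact ⟨z, by norm_num⟩
  have h2 : (3 ^ 7 : ℤ) ∣ ((q + 1 : ℕ) : ℤ) := by
    push_cast
    rw [hy]
    exact ⟨y, by norm_num⟩
  have h3 : (5 ^ 3 : ℤ) ∣ ((q + 1 : ℕ) : ℤ) := by
    push_cast
    rw [hx]
    exact ⟨x, by norm_num⟩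
  refine Nat.Coprime.mul_dvd_of_dvd_of_dvd (by norm_num) ?_ h4
  refine Nat.Coprime.mul_dvd_of_dvd_of_dvd (by norm_num) ?_ (by exact_mod_cast h3)
  exact Nat.Coprime.mul_dvd_of_dvd_of_dvd (by norm_num) (by exact_mod_cast h1) (by exact_mod_cast h2)

/-- a prime with `τ(p) ≠ 0` gives infinitely many shells without the design property -/
theorem q10_not {p : ℕ} (hp : p.Prime) (h : tau p ≠ 0) {k : ℕ} (hk : 0 < k)
    (hq : ∀ q : ℕ, q.Prime → 2 ^ 14 * 3 ^ 7 * 5 ^ 3 * 691 ∣ q + 1 → Even (k.factorization q)) :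
    ¬ IsDesign (p * k) 8 := by
  intro hd
  obtain ⟨q, hq', ho, h0⟩ := E8X.tau_zero_prime (Nat.mul_pos hp.pos hk) (E8X.tau_eq_zero hd)
  rw [Nat.factorization_mul hp.ne_zero hk.ne', Finsupp.add_apply, hp.factorization] at ho
  by_cases hpq : p = q
  · rw [hpq] at h
    exact h h0
  · rw [Finsupp.single_eq_of_ne (Ne.symm hpq), zero_add] at ho
    exact (Nat.not_odd_iff_even.2 (hq q hq' (q10_class hq' h0))) ho

theorem q10_P2 (H : Law) : tau 816212624308699668479999 ≠ 0 := by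
  intro h0
  have hp := P2_prime
  have h25 : 25 ∣ 816212624308699668479999 + 1 := by norm_num
  have hK : Nat.card (GaloisField 816212624308699668479999 2) = 816212624308699668479999 ^ 2 :=
    GaloisField.card _ 2 (by norm_num)
  obtain ⟨ζ, z5, z1⟩ := q10_root (K := GaloisField 816212624308699668479999 2) hp (q9_mod h25) hK
  have := q9_char hp hK
  obtain ⟨w, θ, w5, w1, t5, tp, hu⟩ := P2_quintic z5 z1
  obtain ⟨s, hs⟩ := q9_s (K := GaloisField 816212624308699668479999 2) hp (q9_mod h25) hK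
  have hl := H _ hp h25 _ hK s θ w hs t5 tp w5 w1
  rw [hu] at hl
  have hN := (E8T5.tau_law_125 hp (by norm_num) hK hs).2.1 (by rw [h0]; exact dvd_zero _)
  norm_num at hN
  have h5 : w ^ E8T5.Nf 816212624308699668479999 s = 1 := by
    obtain ⟨c, hc⟩ : 5 ∣ E8T5.Nf 816212624308699668479999 s := by omega
    rw [hc, pow_mul, w5, one_pow]
  rw [h5] at hl
  apply w1
  calc w = w ^ 5 / (w ^ 2) ^ 2 := by
        have hw0 : w ≠ 0 := by
          rintro rfl
          norm_num at w5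
        field_simp
    _ = 1 := by rw [w5, hl]; norm_num

theorem q10_P3 (H : Law) : tau 816212625221716531199999 ≠ 0 := by
  intro h0
  have hp := P3_prime
  have h25 : 25 ∣ 816212625221716531199999 + 1 := by norm_num
  have hK : Nat.card (GaloisField 816212625221716531199999 2) = 816212625221716531199999 ^ 2 :=
    GaloisField.card _ 2 (by norm_num)
  obtain ⟨ζ, z5, z1⟩ := q10_root (K := GaloisField 816212625221716531199999 2) hp (q9_mod h25) hK
  have := q9_char hp hK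
  obtain ⟨w, θ, w5, w1, t5, tp, hu⟩ := P3_quintic z5 z1
  obtain ⟨s, hs⟩ := q9_s (K := GaloisField 816212625221716531199999 2) hp (q9_mod h25) hK
  have hl := H _ hp h25 _ hK s θ w hs t5 tp w5 w1
  rw [hu] at hl
  have hN := (E8T5.tau_law_125 hp (by norm_num) hK hs).2.1 (by rw [h0]; exact dvd_zero _)
  norm_num at hN
  have h5 : w ^ E8T5.Nf 816212625221716531199999 s = 1 := by
    obtain ⟨c, hc⟩ : 5 ∣ E8T5.Nf 816212625221716531199999 s := by omega
    rw [hc, pow_mul, w5, one_pow]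
  rw [h5] at hl
  apply w1
  calc w = (w ^ 3) ^ 2 / w ^ 5 := by
        have hw0 : w ≠ 0 := by
          rintro rfl
          norm_num at w5
        field_simp
    _ = 1 := by rw [w5, hl]; norm_num

end E8T5Q
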