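import Pool.Agent.E8T5Q.Q10

/-!
# [E8T5Q-Q11] the quintic law for all primes `p ≡ 4 mod 5`, in terms of the roots of `x⁵ = 5`
-/

set_option autoImplicit false

open E8X (tau)

namespace E8T5Q

/-- the law for all primes `p ≡ 4 mod 5`, in the form of the unit `1 + ζ⁴ θ³ - ζ² θ⁴` -/
def LawG : Prop := ∀ p : ℕ, p.Prime → p % 5 = 4 → ∀ (K : Type) [Field K], Nat.card K = p ^ 2 →
  ∀ s θ ζ : K, s ^ 2 = 5 → θ ^ 5 = 5 → θ ^ p = θ → ζ ^ 5 = 1 → ζ ≠ 1 →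
    (1 + ζ ^ 4 * θ ^ 3 - ζ ^ 2 * θ ^ 4) ^ ((p ^ 2 - 1) / 5) = ζ ^ (E8T5.Nf p s + 3 * ((p + 1) / 5))

theorem LawG.law (H : LawG) : Law := by
  intro p hp h25 K _ hK s θ ζ hs t5 tp z5 z1
  have h := H p hp (q9_mod h25) K hK s θ ζ hs t5 tp z5 z1
  obtain ⟨k, hk⟩ := h25
  rwa [show 3 * ((p + 1) / 5) = 5 * (3 * k) by omega, pow_add, pow_mul ζ 5, z5, one_pow, mul_one] at h

variable {K : Type} [Field K] {p : ℕ}

/-- **the quintic law** in terms of the roots of `x⁵ = 5` -/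
theorem q11_law (H : LawG) (hp : p.Prime) (h4 : p % 5 = 4) (hK : Nat.card K = p ^ 2) {s x : K}
    (hs : s ^ 2 = 5) (hx : x ^ 5 = 5) :
    (x ^ 2 - 5 * x + 5) ^ ((p ^ 2 - 1) / 5) * x ^ ((p - 1) * (E8T5.Nf p s + (p + 1) / 5)) = 1 := by
  have h5 := q9_five hp h4 hK
  have hx0 : x ≠ 0 := by
    rintro rfl
    apply h5
    rw [← hx, zero_pow (by norm_num)]
  have hf0 := q9_f_ne hp h4 hK hx
  obtain ⟨θ, hθ⟩ : ∃ θ, θ = 5 / x ^ (2 * (p + 1)) := ⟨_, rfl⟩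
  obtain ⟨t5, tp⟩ := q9_theta hp h4 hK hx
  rw [← hθ] at t5 tp
  have hθ0 : θ ≠ 0 := by
    rintro rfl
    apply h5
    rw [← t5, zero_pow (by norm_num)]
  have h5p : (5 : K) ^ p = 5 := by
    have h := q9_nat hp hK 5
    exact_mod_cast h
  have hsub : ∀ a b : K, (a - b) ^ p = a ^ p - b ^ p := by
    intro a b
    have := Fact.mk hp
    have := q9_char hp hK
    exact sub_pow_char a b
  have hadd : ∀ a b : K, (a + b) ^ p = a ^ p + b ^ p := by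
    intro a b
    have := Fact.mk hp
    have := q9_char hp hK
    exact add_pow_char a b p
  by_cases hfx : x ^ p = x
  · -- `x` in the prime field
    have h1 : x ^ (p - 1) = 1 := by
      refine mul_right_cancel₀ hx0 ?_
      rw [← pow_succ, Nat.sub_add_cancel hp.one_le, hfx, one_mul]
    rw [pow_mul, h1, one_pow, mul_one]
    refine q9_fix hp h4 hf0 ?_
    rw [hadd, hsub, mul_pow, h5p, ← pow_mul, mul_comm 2 p, pow_mul, hfx]
  · obtain ⟨ζ, hζ⟩ : ∃ ζ, ζ = (x / θ) ^ 2 := ⟨_, rfl⟩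
    have z5 : ζ ^ 5 = 1 := by
      rw [hζ, ← pow_mul, mul_comm, pow_mul, div_pow, hx, t5, div_self h5, one_pow]
    have z1 : ζ ≠ 1 := by
      intro h
      apply hfx
      have h1 : (x / θ) ^ 5 = 1 := by rw [div_pow, hx, t5, div_self h5]
      have h2 : x / θ = 1 := by
        calc x / θ = (x / θ) ^ 5 / ((x / θ) ^ 2) ^ 2 := by
              field_simp
          _ = 1 := by rw [h1, ← hζ, h]; norm_num
      have h3 : x = θ := by
        rw [div_eq_one_iff_eq hθ0] at h2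
        exact h2
      rw [h3, tp]
    have hl := H p hp h4 K hK s θ ζ hs t5 tp z5 z1
    have hz0 : ζ ≠ 0 := by
      rintro rfl
      rw [zero_pow (by norm_num)] at z5
      exact zero_ne_one z5
    -- `x = ζ³ θ`
    have hxz : x = ζ ^ 3 * θ := by
      have h1 : (x / θ) ^ 5 = 1 := by rw [div_pow, hx, t5, div_self h5]
      have h2 : x / θ = ζ ^ 3 := by
        rw [hζ]
        calc x / θ = (x / θ) ^ 5 * (x / θ) := by rw [h1, one_mul]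
          _ = ((x / θ) ^ 2) ^ 3 := by ring
      rw [← h2, div_mul_cancel₀ _ hθ0]
    have hu : θ ^ 2 * (1 + ζ ^ 4 * θ ^ 3 - ζ ^ 2 * θ ^ 4) = ζ ^ 4 * (x ^ 2 - 5 * x + 5) := by
      rw [hxz]
      linear_combination (ζ ^ 4 - ζ ^ 2 * θ) * t5 + (5 * ζ ^ 2 * θ - (ζ ^ 5 + 1) * θ ^ 2) * z5
    have ha : (θ ^ 2) ^ ((p ^ 2 - 1) / 5) = 1 := by
      refine q9_fix hp h4 (pow_ne_zero 2 hθ0) ?_
      rw [← pow_mul, mul_comm 2 p, pow_mul, tp]
    obtain ⟨n, hn⟩ : ∃ n, n = (p + 1) / 5 := ⟨_, rfl⟩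
    have hpn : p + 1 = 5 * n := by omega
    have hp1 : p - 1 = 5 * (n - 1) + 3 := by
      have := hp.two_le
      omega
    have hb : (ζ ^ 4) ^ ((p ^ 2 - 1) / 5) = ζ ^ (2 * n) := by
      rw [(q9_dvd h4).2, ← hn, ← pow_mul, hp1,
        show 4 * ((5 * (n - 1) + 3) * n) = 5 * (4 * (n - 1) * n + 2 * n) + 2 * n by ring, pow_add,
        pow_mul ζ 5, z5, one_pow, one_mul]
    have hc : (θ ^ 2 * (1 + ζ ^ 4 * θ ^ 3 - ζ ^ 2 * θ ^ 4)) ^ ((p ^ 2 - 1) / 5) =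
        (ζ ^ 4 * (x ^ 2 - 5 * x + 5)) ^ ((p ^ 2 - 1) / 5) := by rw [hu]
    rw [mul_pow, mul_pow, ha, hb, one_mul, hl, ← hn] at hc
    -- `x^(p-1) = ζ⁴`
    have hd : x ^ (p - 1) = ζ ^ 4 := by
      refine mul_right_cancel₀ hx0 ?_
      rw [← pow_succ, Nat.sub_add_cancel hp.one_le]
      conv_lhs => rw [hxz]
      rw [mul_pow, tp]
      have hzp : ζ ^ (p + 1) = 1 := by
        rw [hpn, pow_mul, z5, one_pow]
      have hzp' : ζ ^ p = ζ ^ 4 := by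
        refine mul_right_cancel₀ hz0 ?_
        rw [← pow_succ, hzp, ← pow_succ, z5]
      rw [← pow_mul, mul_comm 3 p, pow_mul, hzp', hxz]
      linear_combination (ζ ^ 7 * θ) * z5
    rw [← hn, pow_mul x, hd, ← pow_mul]
    refine mul_left_cancel₀ (pow_ne_zero (2 * n) hz0) ?_
    calc ζ ^ (2 * n) * ((x ^ 2 - 5 * x + 5) ^ ((p ^ 2 - 1) / 5) * ζ ^ (4 * (E8T5.Nf p s + n)))
        = (ζ ^ (2 * n) * (x ^ 2 - 5 * x + 5) ^ ((p ^ 2 - 1) / 5)) * ζ ^ (4 * (E8T5.Nf p s + n)) := by ring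
      _ = ζ ^ (E8T5.Nf p s + 3 * n) * ζ ^ (4 * (E8T5.Nf p s + n)) := by rw [← hc]
      _ = ζ ^ (2 * n) * (ζ ^ 5) ^ (E8T5.Nf p s + n) := by ring
      _ = ζ ^ (2 * n) * 1 := by rw [z5, one_pow]

end E8T5Q
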