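import Pool.Agent.E8T5Q.Q11

/-!
# [E8T5Q-Q12] the quintic law with `g(x) = x³ - 5 x² + 5 x`, for all primes `p ≡ 4 mod 5`
-/

set_option autoImplicit false

open E8X (tau)

namespace E8T5Q

/-- the number of `t` in `K` with `t ^ (p + 1) = -1` such that `t (t - h)` is a fifth power -/
noncomputable def NN (K : Type) [Field K] (p : ℕ) (h : K) : ℕ :=
  Nat.card {t : K // t ^ (p + 1) = -1 ∧ ∃ z : K, z ^ 5 = t * (t - h)}

section

variable {K : Type} [Field K] {p : ℕ}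

theorem q12_ne5 (hp : p.Prime) (h4 : p % 5 = 4) (hK : Nat.card K = p ^ 2) {x : K} (hx : x ^ 5 = 5) : x ≠ 0 := by
  rintro rfl
  apply q9_five hp h4 hK
  rw [← hx, zero_pow (by norm_num)]

/-- the square root of five belonging to `h` -/
theorem q12_s (hp : p.Prime) (h4 : p % 5 = 4) (hK : Nat.card K = p ^ 2) {h : K} (hh : h ^ 2 + 11 * h = 1) :
    ((2 * h + 11) / 5) ^ 2 = (5 : K) ∧ NN K p h = E8T5.Nf p ((2 * h + 11) / 5) := by
  have h5 := q9_five hp h4 hK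
  have h2 := q9_two hp h4 hK
  have e : (-11 + 5 * ((2 * h + 11) / 5)) / 2 = h := by
    field_simp
    ring
  constructor
  · field_simp
    linear_combination 4 * hh
  · rw [NN, E8T5.Nf, e]

/-- **the quintic law** -/
theorem q12_law (H : LawG) (hp : p.Prime) (h4 : p % 5 = 4) (hK : Nat.card K = p ^ 2) {h x : K}
    (hh : h ^ 2 + 11 * h = 1) (hx : x ^ 5 = 5) :
    (x ^ 3 - 5 * x ^ 2 + 5 * x) ^ ((p ^ 2 - 1) / 5) * x ^ ((p - 1) * NN K p h) = 1 := by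
  obtain ⟨hs, hN⟩ := q12_s hp h4 hK hh
  have h1 := q11_law H hp h4 hK hs hx
  rw [← hN] at h1
  rw [← h1, show x ^ 3 - 5 * x ^ 2 + 5 * x = x * (x ^ 2 - 5 * x + 5) by ring, mul_pow,
    mul_add (p - 1), ← (q9_dvd h4).2, pow_add]
  ring

theorem q12_g_ne (hp : p.Prime) (h4 : p % 5 = 4) (hK : Nat.card K = p ^ 2) {x : K} (hx : x ^ 5 = 5) :
    x ^ 3 - 5 * x ^ 2 + 5 * x ≠ 0 := by
  rw [show x ^ 3 - 5 * x ^ 2 + 5 * x = x * (x ^ 2 - 5 * x + 5) by ring]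
  exact mul_ne_zero (q12_ne5 hp h4 hK hx) (q9_f_ne hp h4 hK hx)

/-- the fifth power criterion -/
theorem q12_crit (H : LawG) (hp : p.Prime) (h4 : p % 5 = 4) (hK : Nat.card K = p ^ 2) {h : K}
    (hh : h ^ 2 + 11 * h = 1) :
    5 ∣ NN K p h ↔ ∀ x : K, x ^ 5 = 5 → ∃ y, y ^ 5 = x ^ 3 - 5 * x ^ 2 + 5 * x := by
  constructor
  · intro h5 x hx
    rw [q10_fifth hp h4 hK (q12_g_ne hp h4 hK hx)]
    have h1 := q12_law H hp h4 hK hh hx
    rwa [q10_mod hp h4 hK hx (show NN K p h % 5 = 0 % 5 by omega), mul_zero, pow_zero, mul_one] at h1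
  · intro hf
    obtain ⟨θ, t5, tp⟩ := q10_theta (K := K) hp h4 hK
    obtain ⟨ζ, z5, z1⟩ := q10_root (K := K) hp h4 hK
    have hθ0 := q12_ne5 hp h4 hK t5
    have hz0 : ζ ≠ 0 := by
      rintro rfl
      rw [zero_pow (by norm_num)] at z5
      exact zero_ne_one z5
    have hx : (ζ * θ) ^ 5 = 5 := by rw [mul_pow, z5, t5, one_mul]
    have h1 := q12_law H hp h4 hK hh hx
    have h2 := (q10_fifth hp h4 hK (q12_g_ne hp h4 hK hx)).1 (hf _ hx)
    rw [h2, one_mul] at h1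
    have hd : (ζ * θ) ^ (p - 1) = ζ ^ 3 := by
      refine mul_right_cancel₀ (mul_ne_zero hz0 hθ0) ?_
      rw [← pow_succ, Nat.sub_add_cancel hp.one_le, mul_pow, tp]
      have hzp : ζ ^ (p + 1) = 1 := by
        rw [show p + 1 = 5 * ((p + 1) / 5) by omega, pow_mul, z5, one_pow]
      have hzp' : ζ ^ p = ζ ^ 4 := by
        refine mul_right_cancel₀ hz0 ?_
        rw [← pow_succ, hzp, ← pow_succ, z5]
      rw [hzp']
      ring
    rw [pow_mul, hd, ← pow_mul] at h1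
    have := Fact.mk Nat.prime_five
    have h3 : orderOf ζ = 5 := orderOf_eq_prime z5 z1
    have h4' := orderOf_dvd_of_pow_eq_one h1
    rw [h3] at h4'
    exact (Nat.Coprime.dvd_of_dvd_mul_left (by norm_num) h4')

end

/-- the test for the primes with `τ(p) = 0` -/
theorem q12_zero (H : LawG) {p : ℕ} (hp : p.Prime) (h0 : tau p = 0) : ∃ w : ℕ, p + 1 = 5 ^ 3 * w ∧
    ∀ (K : Type) [Field K], Nat.card K = p ^ 2 →
      (∀ h : K, h ^ 2 + 11 * h = 1 → NN K p h ≡ w [MOD 5]) ∧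
      ∀ x : K, x ^ 5 = 5 → (x ^ 3 - 5 * x ^ 2 + 5 * x) ^ ((p ^ 2 - 1) / 5) * x ^ ((p - 1) * w) = 1 := by
  obtain ⟨h4, z, hz, -⟩ := T5X.prime_cond5 hp h0
  obtain ⟨w, rfl⟩ := Int.eq_ofNat_of_zero_le (show 0 ≤ z by omega)
  have hw : p + 1 = 125 * w := by exact_mod_cast hz
  refine ⟨w, by rw [hw]; norm_num, ?_⟩
  intro K _ hK
  have hN : ∀ h : K, h ^ 2 + 11 * h = 1 → NN K p h ≡ w [MOD 5] := by
    intro h hh
    obtain ⟨hs, hN⟩ := q12_s hp h4 hK hh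
    have h := (E8T5.tau_law_125 hp ⟨w, hw⟩ hK hs).2.1 (by rw [h0]; exact dvd_zero _)
    rw [hw, Nat.mul_div_cancel_left w (by norm_num)] at h
    rw [hN]
    exact h
  refine ⟨hN, ?_⟩
  intro x hx
  obtain ⟨s, hs⟩ := q9_s (K := K) hp h4 hK
  have h2 := q9_two hp h4 hK
  have hh : ((-11 + 5 * s) / 2) ^ 2 + 11 * ((-11 + 5 * s) / 2) = 1 := by
    field_simp
    linear_combination 25 * hs
  have h := q12_law H hp h4 hK hh hx
  rwa [q10_mod hp h4 hK hx (hN _ hh)] at h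

/-- the law for `τ(p)`, `p ≡ 4 mod 5` -/
theorem q12_tau {p : ℕ} (hp : p.Prime) (h4 : p % 5 = 4) {K : Type} [Field K] (hK : Nat.card K = p ^ 2) {h : K}
    (hh : h ^ 2 + 11 * h = 1) :
    tau p ≡ 106 * (1 + (p : ℤ) ^ 11) - 200 * (1 + (p : ℤ) ^ 5) + (180 - 50 * p) * (1 + p) - 125 * NN K p h
      [ZMOD 625] := by
  obtain ⟨hs, hN⟩ := q12_s hp h4 hK hh
  have h1 := E8T5.tau_law hp h4 hK hs
  rw [← hN] at h1
  exact (Int.modEq_iff_dvd.2 h1).symm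

/-- the law for `τ(p)`, `p ≡ -1 mod 25` -/
theorem q12_tau25 {p : ℕ} (hp : p.Prime) (h25 : 25 ∣ p + 1) {K : Type} [Field K] (hK : Nat.card K = p ^ 2) {h : K}
    (hh : h ^ 2 + 11 * h = 1) : tau p ≡ 46 * ((p : ℤ) + 1) - 125 * NN K p h [ZMOD 625] := by
  obtain ⟨hs, hN⟩ := q12_s hp (q9_mod h25) hK hh
  have h1 := E8T5.tau_law_25 hp h25 hK hs
  rw [← hN] at h1
  exact (Int.modEq_iff_dvd.2 h1).symm

/-- the count and the theta series -/
theorem q12_tr {p : ℕ} (hp : p.Prime) (h4 : p % 5 = 4) {K : Type} [Field K] (hK : Nat.card K = p ^ 2) {h : K}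
    (hh : h ^ 2 + 11 * h = 1) : (5 * NN K p h : ℤ) = p + 1 - 2 * PowerSeries.coeff p E8T5.trS := by
  obtain ⟨hs, hN⟩ := q12_s hp h4 hK hh
  rw [hN]
  exact E8T5.count hp h4 hK hs

end E8T5Q
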