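import Pool.Agent.E8T3.Q2

/-!
# [E8T5Q-Q8] two explicit primes

`P = 816212624308699668479999` and `P' = 816212625221716531199999` are primes which satisfy every
classical congruence condition for `τ(P) = 0`, the condition on the first 2-adic digit (the octic) and
the condition on the first 3-adic digit beyond the classical ones (the cubic); `5 ^ 4` divides `P + 1`
and `P' + 1`, and the unit `1 + ζ⁴ θ³ - ζ² θ⁴`, `θ⁵ = 5`, is no fifth power in the field with `P²`
(`P'²`) elements.
-/

set_option autoImplicit false

namespace E8T5Q

/-- multiplication in `ℤ[x] / (x² - g x + 1, M)` -/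
def q8m (M g : ℕ) (a b : ℕ × ℕ) : ℕ × ℕ :=
  ((a.1 * b.1 + (M - (a.2 * b.2) % M)) % M, (a.1 * b.2 + a.2 * b.1 + g * a.2 * b.2) % M)

def q8step (M g : ℕ) (u a : ℕ × ℕ) (b : Bool) : ℕ × ℕ :=
  if b then q8m M g (q8m M g a a) u else q8m M g a a

section

variable {K : Type*} [CommRing K] {M g : ℕ}

theorem q8_cast (hM : (M : K) = 0) (n : ℕ) : ((n % M : ℕ) : K) = n := by
  conv_rhs => rw [← Nat.div_add_mod n M]
  push_cast
  rw [hM, zero_mul, zero_add]

theorem q8_mul (h0 : 0 < M) (hM : (M : K) = 0) {ζ : K} (hζ : ζ ^ 2 = g * ζ - 1) (a b : ℕ × ℕ) :
    ((q8m M g a b).1 : K) + (q8m M g a b).2 * ζ = (a.1 + a.2 * ζ) * (b.1 + b.2 * ζ) := by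
  rw [q8m]
  simp only
  rw [q8_cast hM, q8_cast hM, Nat.cast_add, Nat.cast_sub (Nat.mod_lt _ h0).le, q8_cast hM, hM]
  push_cast
  linear_combination (-((a.2 : K) * b.2)) * hζ

theorem q8_fold (h0 : 0 < M) (hM : (M : K) = 0) {ζ : K} (hζ : ζ ^ 2 = g * ζ - 1) (u : ℕ × ℕ)
    (l : List Bool) : ∀ (a : ℕ × ℕ) (n : ℕ), ((a.1 : K) + a.2 * ζ = (u.1 + u.2 * ζ) ^ n) →
      (((l.foldl (q8step M g u) a).1 : K) + (l.foldl (q8step M g u) a).2 * ζ =
        (u.1 + u.2 * ζ) ^ (l.foldl E8T3.q2num n)) := by
  induction l with
  | nil =>
    intro a n h
    exact h
  | cons b l ih =>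
    intro a n h
    rw [List.foldl_cons, List.foldl_cons]
    apply ih
    have h3 : (((q8m M g a a).1 : K) + (q8m M g a a).2 * ζ) = (u.1 + u.2 * ζ) ^ (2 * n) := by
      rw [q8_mul h0 hM hζ, h, ← pow_add, two_mul]
    rcases b with _ | _
    · exact h3
    · have h4 : ((u.1 : K) + u.2 * ζ) ^ (E8T3.q2num n true) = (u.1 + u.2 * ζ) ^ (2 * n) * (u.1 + u.2 * ζ) := by
        rw [E8T3.q2num, if_pos rfl, pow_succ]
      rw [h4, ← h3, q8step, if_pos rfl, q8_mul h0 hM hζ]

end

/-- a primitive fifth root of unity with a given trace -/
theorem q8_zeta {K : Type*} [Field K] {g ζ : K} (hg : g ^ 2 + g = 1) (h1 : ζ ^ 5 = 1) (h2 : ζ ≠ 1) :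
    ∃ w : K, w ^ 5 = 1 ∧ w ≠ 1 ∧ w ^ 2 = g * w - 1 := by
  have hs : ζ ^ 4 + ζ ^ 3 + ζ ^ 2 + ζ + 1 = 0 := by
    refine mul_left_cancel₀ (sub_ne_zero.2 h2) ?_
    linear_combination h1
  have h0 : (ζ ^ 2 - g * ζ + 1) * (ζ ^ 2 + (1 + g) * ζ + 1) = 0 := by
    linear_combination hs - ζ ^ 2 * hg
  rcases mul_eq_zero.1 h0 with h | h
  · exact ⟨ζ, h1, h2, by linear_combination h⟩
  · refine ⟨ζ ^ 2, by rw [← pow_mul, mul_comm, pow_mul, h1, one_pow], ?_, ?_⟩
    · intro h3
      apply h2
      have : ζ ^ 5 = ζ := by
        calc ζ ^ 5 = (ζ ^ 2) ^ 2 * ζ := by ring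
          _ = ζ := by rw [h3]; ring
      rw [← this, h1]
    · linear_combination (ζ ^ 2 - (1 + g) * ζ + 1) * h + ζ ^ 2 * hg

theorem P2_q1 : Nat.Prime 16506929067047 := by
  refine lucas_primality _ (10 : ZMod 16506929067047) (by reduce_mod_char) ?_
  intro q hq hd
  have h : q ∣ 2 * (11 * (241 * (683 * (1801 * 2531)))) := hd
  have h11 : Nat.Prime 11 := by norm_num
  have h241 : Nat.Prime 241 := by norm_num
  have h683 : Nat.Prime 683 := by norm_num
  have h1801 : Nat.Prime 1801 := by norm_num
  have h2531 : Nat.Prime 2531 := by norm_num
  rw [hq.dvd_mul, hq.dvd_mul, hq.dvd_mul,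
    hq.dvd_mul, hq.dvd_mul, Nat.prime_dvd_prime_iff_eq hq Nat.prime_two,
    Nat.prime_dvd_prime_iff_eq hq h11, Nat.prime_dvd_prime_iff_eq hq h241, Nat.prime_dvd_prime_iff_eq hq h683,
    Nat.prime_dvd_prime_iff_eq hq h1801, Nat.prime_dvd_prime_iff_eq hq h2531] at h
  rcases h with rfl | rfl | rfl | rfl | rfl | rfl
  all_goals
    norm_num only
    reduce_mod_char
    decide

theorem P2_q2 : Nat.Prime 98173276919497193707 := by
  refine lucas_primality _ (2 : ZMod 98173276919497193707) (by reduce_mod_char) ?_
  intro q hq hd
  have h : q ∣ 2 * (3 * (3 * (3 * (241 * (457 * 16506929067047))))) := hd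
  have h241 : Nat.Prime 241 := by norm_num
  have h457 : Nat.Prime 457 := by norm_num
  rw [hq.dvd_mul, hq.dvd_mul, hq.dvd_mul,
    hq.dvd_mul, hq.dvd_mul, hq.dvd_mul,
    Nat.prime_dvd_prime_iff_eq hq Nat.prime_two, Nat.prime_dvd_prime_iff_eq hq Nat.prime_three, Nat.prime_dvd_prime_iff_eq hq h241,
    Nat.prime_dvd_prime_iff_eq hq h457, Nat.prime_dvd_prime_iff_eq hq P2_q1] at h
  rcases h with rfl | rfl | rfl | rfl | rfl | rfl | rfl
  all_goals
    norm_num only
    reduce_mod_char
    decide

theorem P2_prime : Nat.Prime 816212624308699668479999 := by
  refine lucas_primality _ (11 : ZMod 816212624308699668479999) (by reduce_mod_char) ?_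
  intro q hq hd
  have h : q ∣ 2 * (4157 * 98173276919497193707) := hd
  have h4157 : Nat.Prime 4157 := by norm_num
  rw [hq.dvd_mul, hq.dvd_mul, Nat.prime_dvd_prime_iff_eq hq Nat.prime_two,
    Nat.prime_dvd_prime_iff_eq hq h4157, Nat.prime_dvd_prime_iff_eq hq P2_q2] at h
  rcases h with rfl | rfl | rfl
  all_goals
    norm_num only
    reduce_mod_char
    decide

theorem P3_q1 : Nat.Prime 44448779 := by
  refine lucas_primality _ (2 : ZMod 44448779) (by reduce_mod_char) ?_
  intro q hq hd
  have h : q ∣ 2 * (11 * (17 * (17 * 6991))) := hd
  have h11 : Nat.Prime 11 := by norm_num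
  have h17 : Nat.Prime 17 := by norm_num
  have h6991 : Nat.Prime 6991 := by norm_num
  rw [hq.dvd_mul, hq.dvd_mul, hq.dvd_mul,
    hq.dvd_mul, Nat.prime_dvd_prime_iff_eq hq Nat.prime_two, Nat.prime_dvd_prime_iff_eq hq h11,
    Nat.prime_dvd_prime_iff_eq hq h17, Nat.prime_dvd_prime_iff_eq hq h6991] at h
  rcases h with rfl | rfl | rfl | rfl | rfl
  all_goals
    norm_num only
    reduce_mod_char
    decide

theorem P3_q2 : Nat.Prime 88897559 := by
  refine lucas_primality _ (7 : ZMod 88897559) (by reduce_mod_char) ?_
  intro q hq hd
  have h : q ∣ 2 * 44448779 := hd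
  rw [hq.dvd_mul, Nat.prime_dvd_prime_iff_eq hq Nat.prime_two, Nat.prime_dvd_prime_iff_eq hq P3_q1] at h
  rcases h with rfl | rfl
  all_goals
    norm_num only
    reduce_mod_char
    decide

theorem P3_q3 : Nat.Prime 83337103 := by
  refine lucas_primality _ (3 : ZMod 83337103) (by reduce_mod_char) ?_
  intro q hq hd
  have h : q ∣ 2 * (3 * (3 * (61 * (71 * 1069)))) := hd
  have h61 : Nat.Prime 61 := by norm_num
  have h71 : Nat.Prime 71 := by norm_num
  have h1069 : Nat.Prime 1069 := by norm_num
  rw [hq.dvd_mul, hq.dvd_mul, hq.dvd_mul,
    hq.dvd_mul, hq.dvd_mul, Nat.prime_dvd_prime_iff_eq hq Nat.prime_two,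
    Nat.prime_dvd_prime_iff_eq hq Nat.prime_three, Nat.prime_dvd_prime_iff_eq hq h61, Nat.prime_dvd_prime_iff_eq hq h71,
    Nat.prime_dvd_prime_iff_eq hq h1069] at h
  rcases h with rfl | rfl | rfl | rfl | rfl | rfl
  all_goals
    norm_num only
    reduce_mod_char
    decide

theorem P3_prime : Nat.Prime 816212625221716531199999 := by
  refine lucas_primality _ (11 : ZMod 816212625221716531199999) (by reduce_mod_char) ?_
  intro q hq hd
  have h : q ∣ 2 * (173 * (318419 * (83337103 * 88897559))) := hd
  have h173 : Nat.Prime 173 := by norm_num
  have h318419 : Nat.Prime 318419 := by norm_num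
  rw [hq.dvd_mul, hq.dvd_mul, hq.dvd_mul,
    hq.dvd_mul, Nat.prime_dvd_prime_iff_eq hq Nat.prime_two, Nat.prime_dvd_prime_iff_eq hq h173,
    Nat.prime_dvd_prime_iff_eq hq h318419, Nat.prime_dvd_prime_iff_eq hq P3_q3, Nat.prime_dvd_prime_iff_eq hq P3_q2] at h
  rcases h with rfl | rfl | rfl | rfl | rfl
  all_goals
    norm_num only
    reduce_mod_char
    decide

/-- the binary digits of `(P2² - 1) / 5` -/
def P2bits : List Bool :=
  [true, false, true, true, true, false, true, false, true, false, true, true, false, true, false, true,
  true, false, true, true, true, false, false, true, false, true, true, true, true, true, true, false, false,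
  false, false, true, false, true, false, false, false, false, true, false, false, true, true, true, false,
  false, false, true, false, false, false, true, false, true, true, false, false, true, false, true, true,
  true, true, true, true, true, false, false, false, false, false, false, false, false, true, false, true,
  false, true, false, false, true, false, false, true, false, false, true, true, false, true, true, false,
  false, false, true, true, true, false, false, false, false, true, false, false, true, false, true, true,
  false, false, false, true, false, false, true, false, false, false, false, true, true, false, false, false,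
  true, true, false, true, false, true, false, false, true, true, true, false, false, false, false, false,
  false, false, false, false, false, false, false, false, false, false, false, false]

theorem P2bits_num : P2bits.foldl E8T3.q2num 0 = (816212624308699668479999 ^ 2 - 1) / 5 := by
  decide +kernel

theorem P2_pow : P2bits.foldl (q8step 816212624308699668479999 432363989245874698736159 (717971099997125003640442, 567031248638797480317859)) (1, 0) =
    (816212624308699668479998, 432363989245874698736159) := by
  decide +kernel

/-- the binary digits of `(P3² - 1) / 5` -/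
def P3bits : List Bool :=
  [true, false, true, true, true, false, true, false, true, false, true, true, false, true, false, true,
  true, false, true, true, true, false, false, true, true, false, false, false, false, true, false, true,
  false, false, false, true, false, true, true, false, false, false, true, true, false, false, false, true,
  true, true, false, true, false, false, false, true, true, false, true, true, false, true, false, true,
  false, true, true, false, true, false, false, false, false, false, true, true, false, true, false, false,
  true, false, true, false, false, true, true, true, false, false, false, false, true, true, true, true,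
  false, true, true, true, true, false, false, true, true, true, true, false, false, false, true, false,
  false, false, false, true, true, false, false, false, false, true, false, false, false, false, false,
  false, false, true, false, true, false, true, true, true, true, true, true, true, false, true, false,
  false, false, false, false, false, false, false, false, false, false, false, false, false, false]

theorem P3bits_num : P3bits.foldl E8T3.q2num 0 = (816212625221716531199999 ^ 2 - 1) / 5 := by
  decide +kernel

theorem P3_pow : P3bits.foldl (q8step 816212625221716531199999 321151313705157245223762 (191693331605927678724310, 289577401439254358516875)) (1, 0) =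
    (495061311516559285976237, 495061311516559285976237) := by
  decide +kernel

instance P2_fact : Fact (Nat.Prime 816212624308699668479999) := ⟨P2_prime⟩

instance P3_fact : Fact (Nat.Prime 816212625221716531199999) := ⟨P3_prime⟩

theorem P2_dvd : 2 ^ 15 * 3 ^ 7 * 5 ^ 4 * 691 ∣ 816212624308699668479999 + 1 ∧ ¬ 3 ^ 8 ∣ 816212624308699668479999 + 1 ∧
    816212624308699668479999 % 49 = 31 := by
  norm_num

theorem P3_dvd : 2 ^ 14 * 3 ^ 7 * 5 ^ 4 * 691 ∣ 816212625221716531199999 + 1 ∧ ¬ 3 ^ 8 ∣ 816212625221716531199999 + 1 ∧
    ¬ 2 ^ 15 ∣ 816212625221716531199999 + 1 ∧ 816212625221716531199999 % 49 = 48 := by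
  norm_num

theorem P2_23 : ¬ IsSquare ((816212624308699668479999 : ℕ) : ZMod 23) := by
  decide

theorem P3_23 : ¬ IsSquare ((816212625221716531199999 : ℕ) : ZMod 23) := by
  decide

/-- the binary digits of `P2` -/
def P2cbits : List Bool :=
  [true, false, true, false, true, true, false, false, true, true, false, true, false, true, true, false,
  true, true, true, true, true, false, false, true, true, false, false, true, true, false, true, true, false,
  false, true, true, false, false, false, false, true, true, true, true, false, false, false, false, true,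
  false, false, true, true, true, true, false, true, false, true, true, true, true, false, false, true, true,
  true, true, true, true, true, true, true, true, true, true, true, true, true, true]

theorem P2cbits_num : P2cbits.foldl E8T3.q2num 0 = 816212624308699668479999 := by
  decide +kernel

theorem P2_cpow : P2cbits.foldl (E8T3.q2step 816212624308699668479999 67350873642822605310855) (1, 0, 0) =
    (299179654914881063138752, 598815616519099328938635, 666622796851259136910623) := by
  decide +kernel

/-- The polynomial `(x³ - 3 x + 1)³ - 24` has no root modulo `P2`. -/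
theorem P2_noroot : ¬ ∃ x : ZMod 816212624308699668479999, (x ^ 3 - 3 * x + 1) ^ 3 = 24 := by
  rintro ⟨x, hx⟩
  have h1 : x ^ 3 - 3 * x + 1 = 2 * 33675436821411302655428 := by
    apply E8T3.q2_cube (by norm_num)
    rw [hx]
    reduce_mod_char
  have h2 : x ^ 3 = 3 * x + ((67350873642822605310855 : ℕ) : ZMod 816212624308699668479999) := by
    have e : (2 * 33675436821411302655428 : ZMod 816212624308699668479999) =
      1 + ((67350873642822605310855 : ℕ) : ZMod 816212624308699668479999) := by
      push_cast
      reduce_mod_char
    rw [e] at h1
    linear_combination h1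
  have h3 := E8T3.q2_fold x h2 P2cbits (1, 0, 0) 0 (by norm_num)
  rw [P2cbits_num, P2_cpow, ZMod.pow_card] at h3
  have h4 : (299179654914881063138752 : ZMod 816212624308699668479999) +
    598815616519099328938634 * x + 666622796851259136910623 * x ^ 2 = 0 := by
    push_cast at h3
    linear_combination h3
  push_cast at h2
  have n3 : (598815616519099328938634 * 490628851925472048618951 + 666622796851259136910623 * 413504693731231630230029 :
      ZMod 816212624308699668479999) = 543721188403809323256783 := by reduce_mod_char
  have n4 : (666622796851259136910623 * 490628851925472048618951 :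
      ZMod 816212624308699668479999) = 213260825203829783813792 := by reduce_mod_char
  have n0 : (299179654914881063138752 * 428959945816035527418555 + 67350873642822605310855 * 543721188403809323256783 :
      ZMod 816212624308699668479999) = 1 := by reduce_mod_char
  have n1 : (299179654914881063138752 * 413504693731231630230029 + 598815616519099328938634 * 428959945816035527418555 +
      3 * 543721188403809323256783 + 67350873642822605310855 * 213260825203829783813792 :
      ZMod 816212624308699668479999) = 0 := by reduce_mod_char
  have n2 : (299179654914881063138752 * 490628851925472048618951 + 598815616519099328938634 * 413504693731231630230029 +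
      666622796851259136910623 * 428959945816035527418555 + 3 * 213260825203829783813792 :
      ZMod 816212624308699668479999) = 0 := by reduce_mod_char
  have h5 : (1 : ZMod 816212624308699668479999) = 0 := by
    linear_combination (428959945816035527418555 + 413504693731231630230029 * x +
      490628851925472048618951 * x ^ 2) * h4 - n0 - x * n1 - x ^ 2 * n2 - x ^ 3 * n3 - x ^ 4 * n4 -
      (543721188403809323256783 + 213260825203829783813792 * x) * h2
  exact one_ne_zero h5

/-- the binary digits of `P3` -/
def P3cbits : List Bool :=
  [true, false, true, false, true, true, false, false, true, true, false, true, false, true, true, false,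
  true, true, true, true, true, false, false, true, true, false, false, true, true, true, true, false, false,
  true, true, false, true, true, true, true, false, true, false, true, false, false, true, false, true, true,
  true, false, true, true, false, false, true, false, false, false, false, false, true, true, true, false,
  true, true, true, true, true, true, true, true, true, true, true, true, true, true]

theorem P3cbits_num : P3cbits.foldl E8T3.q2num 0 = 816212625221716531199999 := by
  decide +kernel

theorem P3_cpow : P3cbits.foldl (E8T3.q2step 816212625221716531199999 757812414120442892103566) (1, 0, 0) =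
    (244348719060962318939024, 620567957457216824352483, 694038265691235371730487) := by
  decide +kernel

/-- The polynomial `(x³ - 3 x + 1)³ - 24` has no root modulo `P3`. -/
theorem P3_noroot : ¬ ∃ x : ZMod 816212625221716531199999, (x ^ 3 - 3 * x + 1) ^ 3 = 24 := by
  rintro ⟨x, hx⟩
  have h1 : x ^ 3 - 3 * x + 1 = 2 * 787012519671079711651783 := by
    apply E8T3.q2_cube (by norm_num)
    rw [hx]
    reduce_mod_char
  have h2 : x ^ 3 = 3 * x + ((757812414120442892103566 : ℕ) : ZMod 816212625221716531199999) := by
    have e : (2 * 787012519671079711651783 : ZMod 816212625221716531199999) =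
      1 + ((757812414120442892103566 : ℕ) : ZMod 816212625221716531199999) := by
      push_cast
      reduce_mod_char
    rw [e] at h1
    linear_combination h1
  have h3 := E8T3.q2_fold x h2 P3cbits (1, 0, 0) 0 (by norm_num)
  rw [P3cbits_num, P3_cpow, ZMod.pow_card] at h3
  have h4 : (244348719060962318939024 : ZMod 816212625221716531199999) +
    620567957457216824352482 * x + 694038265691235371730487 * x ^ 2 = 0 := by
    push_cast at h3
    linear_combination h3
  push_cast at h2
  have n3 : (620567957457216824352482 * 751355998455412221002604 + 694038265691235371730487 * 694396528179764297148930 :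
      ZMod 816212625221716531199999) = 565307297780491463692216 := by reduce_mod_char
  have n4 : (694038265691235371730487 * 751355998455412221002604 :
      ZMod 816212625221716531199999) = 672330803220864981158144 := by reduce_mod_char
  have n0 : (244348719060962318939024 * 442508915116674517284627 + 757812414120442892103566 * 565307297780491463692216 :
      ZMod 816212625221716531199999) = 1 := by reduce_mod_char
  have n1 : (244348719060962318939024 * 694396528179764297148930 + 620567957457216824352482 * 442508915116674517284627 +
      3 * 565307297780491463692216 + 757812414120442892103566 * 672330803220864981158144 :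
      ZMod 816212625221716531199999) = 0 := by reduce_mod_char
  have n2 : (244348719060962318939024 * 751355998455412221002604 + 620567957457216824352482 * 694396528179764297148930 +
      694038265691235371730487 * 442508915116674517284627 + 3 * 672330803220864981158144 :
      ZMod 816212625221716531199999) = 0 := by reduce_mod_char
  have h5 : (1 : ZMod 816212625221716531199999) = 0 := by
    linear_combination (442508915116674517284627 + 694396528179764297148930 * x +
      751355998455412221002604 * x ^ 2) * h4 - n0 - x * n1 - x ^ 2 * n2 - x ^ 3 * n3 - x ^ 4 * n4 -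
      (565307297780491463692216 + 672330803220864981158144 * x) * h2
  exact one_ne_zero h5

/-- `τ(P) = 0` passes the test of the first 2-adic digit. -/
theorem P2_roots : (Finset.univ.filter fun x : ZMod 816212624308699668479999 =>
    ((x ^ 2 - 1) ^ 2 - 2) ^ 2 - 2 = 0).card = 6 := by
  refine (E8G.roots_of (s := 147025893059733693105496) (τ := 180619570439504439730088) (by norm_num)
    (by reduce_mod_char) ⟨651480170516409412015213, by reduce_mod_char⟩ (by reduce_mod_char)).1 ?_
  exact ⟨464748639945213314638825, by reduce_mod_char⟩

/-- `τ(P') = 0` passes the test of the first 2-adic digit. -/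
theorem P3_roots : (Finset.univ.filter fun x : ZMod 816212625221716531199999 =>
    ((x ^ 2 - 1) ^ 2 - 2) ^ 2 - 2 = 0).card = 2 := by
  refine (E8G.roots_of (s := 732553109270522095005872) (τ := 671943589917361971709562) (by norm_num)
    (by reduce_mod_char) ⟨266951590974240689844240, by reduce_mod_char⟩ (by reduce_mod_char)).2 ?_
  rintro ⟨y, hy⟩
  obtain ⟨-, hneg, -⟩ := E8G.P_signs (p := 816212625221716531199999) (by norm_num)
  have h1 : (26589233864209908369907 : ZMod 816212625221716531199999) * 26589233864209908369907 =
    -(1 + 671943589917361971709562) := by reduce_mod_char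
  have hy0 : y ≠ 0 := by
    rintro rfl
    have h2 : (1 + 671943589917361971709562 : ZMod 816212625221716531199999) = 0 := by
      rw [hy, mul_zero]
    have h3 : (1 + 671943589917361971709562 : ZMod 816212625221716531199999) ≠ 0 := by
      reduce_mod_char
      decide
    exact h3 h2
  apply hneg
  refine ⟨26589233864209908369907 / y, ?_⟩
  rw [div_mul_div_comm, h1, hy, neg_div, div_self (mul_ne_zero hy0 hy0)]

/-- In the field with `P2²` elements the unit `1 + ζ⁴ θ³ - ζ² θ⁴` is no fifth power. -/
theorem P2_quintic {K : Type*} [Field K] [CharP K 816212624308699668479999] {ζ : K} (h1 : ζ ^ 5 = 1) (h2 : ζ ≠ 1) :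
    ∃ w θ : K, w ^ 5 = 1 ∧ w ≠ 1 ∧ θ ^ 5 = 5 ∧ θ ^ 816212624308699668479999 = θ ∧
      (1 + w ^ 4 * θ ^ 3 - w ^ 2 * θ ^ 4) ^ ((816212624308699668479999 ^ 2 - 1) / 5) = w ^ 2 := by
  have hM : ((816212624308699668479999 : ℕ) : K) = 0 := CharP.cast_eq_zero K _
  have hg : ((432363989245874698736159 : ℕ) : K) ^ 2 + ((432363989245874698736159 : ℕ) : K) = 1 := by
    have h : (((432363989245874698736159 ^ 2 + 432363989245874698736159 - 1) / 816212624308699668479999 * 816212624308699668479999 + 1 : ℕ) : K) = 1 := by
      rw [Nat.cast_add, Nat.cast_mul, hM, mul_zero, zero_add, Nat.cast_one]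
    rw [← Nat.cast_pow, ← Nat.cast_add]
    rw [show (432363989245874698736159 ^ 2 + 432363989245874698736159 : ℕ) = (432363989245874698736159 ^ 2 + 432363989245874698736159 - 1) / 816212624308699668479999 * 816212624308699668479999 + 1 by norm_num]
    exact h
  obtain ⟨w, hw5, hw1, hw2⟩ := q8_zeta hg h1 h2
  have ht : ((232821330531381554565318 : ℕ) : K) ^ 5 = 5 := by
    have h : (((232821330531381554565318 ^ 5 - 5) / 816212624308699668479999 * 816212624308699668479999 + 5 : ℕ) : K) = 5 := by
      rw [Nat.cast_add, Nat.cast_mul, hM, mul_zero, zero_add]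
      norm_num
    rw [← Nat.cast_pow]
    rw [show (232821330531381554565318 ^ 5 : ℕ) = (232821330531381554565318 ^ 5 - 5) / 816212624308699668479999 * 816212624308699668479999 + 5 by norm_num]
    exact h
  refine ⟨w, ((232821330531381554565318 : ℕ) : K), hw5, hw1, ht, ?_, ?_⟩
  · have h := ZMod.pow_card ((232821330531381554565318 : ℕ) : ZMod 816212624308699668479999)
    have h' := congrArg (ZMod.castHom (dvd_refl 816212624308699668479999) K) h
    rw [map_pow, map_natCast] at h'
    exact h'
  · have hu : (1 + w ^ 4 * ((232821330531381554565318 : ℕ) : K) ^ 3 - w ^ 2 * ((232821330531381554565318 : ℕ) : K) ^ 4) =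
        ((717971099997125003640442 : ℕ) : K) + ((567031248638797480317859 : ℕ) : K) * w := by
      have w4 : w ^ 4 = ((432363989245874698736159 : ℕ) : K) - w := by
        refine mul_left_cancel₀ (show w ≠ 0 by rintro rfl; norm_num at hw5) ?_
        linear_combination hw5 + hw2
      rw [w4, hw2]
      have ha : ((717971099997125003640442 : ℕ) : K) = 1 + ((432363989245874698736159 : ℕ) : K) * ((232821330531381554565318 : ℕ) : K) ^ 3 + ((232821330531381554565318 : ℕ) : K) ^ 4 := by
        have h : ((1 + 432363989245874698736159 * 232821330531381554565318 ^ 3 + 232821330531381554565318 ^ 4 : ℕ) : K) = ((717971099997125003640442 : ℕ) : K) := by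
          rw [show (1 + 432363989245874698736159 * 232821330531381554565318 ^ 3 + 232821330531381554565318 ^ 4 : ℕ) =
            (1 + 432363989245874698736159 * 232821330531381554565318 ^ 3 + 232821330531381554565318 ^ 4) / 816212624308699668479999 * 816212624308699668479999 + 717971099997125003640442 by norm_num, Nat.cast_add, Nat.cast_mul, hM,
            mul_zero, zero_add]
        rw [← h]
        push_cast
        ring
      have hb : ((567031248638797480317859 : ℕ) : K) = -(((232821330531381554565318 : ℕ) : K) ^ 3 + ((432363989245874698736159 : ℕ) : K) * ((232821330531381554565318 : ℕ) : K) ^ 4) := by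
        have h : ((232821330531381554565318 ^ 3 + 432363989245874698736159 * 232821330531381554565318 ^ 4 + 567031248638797480317859 : ℕ) : K) = 0 := by
          rw [show (232821330531381554565318 ^ 3 + 432363989245874698736159 * 232821330531381554565318 ^ 4 + 567031248638797480317859 : ℕ) =
            (232821330531381554565318 ^ 3 + 432363989245874698736159 * 232821330531381554565318 ^ 4 + 567031248638797480317859) / 816212624308699668479999 * 816212624308699668479999 by norm_num, Nat.cast_mul, hM, mul_zero]
        push_cast at h ⊢
        linear_combination h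
      rw [ha, hb]
      ring
    have h3 := q8_fold (by norm_num) hM hw2 (717971099997125003640442, 567031248638797480317859) P2bits (1, 0) 0 (by simp)
    rw [P2bits_num, P2_pow] at h3
    rw [hu, ← h3]
    have e : ((816212624308699668479998 : ℕ) : K) = -1 := by
      have h : ((816212624308699668479998 + 1 : ℕ) : K) = 0 := hM
      rw [Nat.cast_add, Nat.cast_one] at h
      linear_combination h
    rw [e, hw2]
    ring

/-- In the field with `P3²` elements the unit `1 + ζ⁴ θ³ - ζ² θ⁴` is no fifth power. -/
theorem P3_quintic {K : Type*} [Field K] [CharP K 816212625221716531199999] {ζ : K} (h1 : ζ ^ 5 = 1) (h2 : ζ ≠ 1) :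
    ∃ w θ : K, w ^ 5 = 1 ∧ w ≠ 1 ∧ θ ^ 5 = 5 ∧ θ ^ 816212625221716531199999 = θ ∧
      (1 + w ^ 4 * θ ^ 3 - w ^ 2 * θ ^ 4) ^ ((816212625221716531199999 ^ 2 - 1) / 5) = w ^ 3 := by
  have hM : ((816212625221716531199999 : ℕ) : K) = 0 := CharP.cast_eq_zero K _
  have hg : ((321151313705157245223762 : ℕ) : K) ^ 2 + ((321151313705157245223762 : ℕ) : K) = 1 := by
    have h : (((321151313705157245223762 ^ 2 + 321151313705157245223762 - 1) / 816212625221716531199999 * 816212625221716531199999 + 1 : ℕ) : K) = 1 := by
      rw [Nat.cast_add, Nat.cast_mul, hM, mul_zero, zero_add, Nat.cast_one]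
    rw [← Nat.cast_pow, ← Nat.cast_add]
    rw [show (321151313705157245223762 ^ 2 + 321151313705157245223762 : ℕ) = (321151313705157245223762 ^ 2 + 321151313705157245223762 - 1) / 816212625221716531199999 * 816212625221716531199999 + 1 by norm_num]
    exact h
  obtain ⟨w, hw5, hw1, hw2⟩ := q8_zeta hg h1 h2
  have ht : ((3999330129571306384578 : ℕ) : K) ^ 5 = 5 := by
    have h : (((3999330129571306384578 ^ 5 - 5) / 816212625221716531199999 * 816212625221716531199999 + 5 : ℕ) : K) = 5 := by
      rw [Nat.cast_add, Nat.cast_mul, hM, mul_zero, zero_add]
      norm_num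
    rw [← Nat.cast_pow]
    rw [show (3999330129571306384578 ^ 5 : ℕ) = (3999330129571306384578 ^ 5 - 5) / 816212625221716531199999 * 816212625221716531199999 + 5 by norm_num]
    exact h
  refine ⟨w, ((3999330129571306384578 : ℕ) : K), hw5, hw1, ht, ?_, ?_⟩
  · have h := ZMod.pow_card ((3999330129571306384578 : ℕ) : ZMod 816212625221716531199999)
    have h' := congrArg (ZMod.castHom (dvd_refl 816212625221716531199999) K) h
    rw [map_pow, map_natCast] at h'
    exact h'
  · have hu : (1 + w ^ 4 * ((3999330129571306384578 : ℕ) : K) ^ 3 - w ^ 2 * ((3999330129571306384578 : ℕ) : K) ^ 4) =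
        ((191693331605927678724310 : ℕ) : K) + ((289577401439254358516875 : ℕ) : K) * w := by
      have w4 : w ^ 4 = ((321151313705157245223762 : ℕ) : K) - w := by
        refine mul_left_cancel₀ (show w ≠ 0 by rintro rfl; norm_num at hw5) ?_
        linear_combination hw5 + hw2
      rw [w4, hw2]
      have ha : ((191693331605927678724310 : ℕ) : K) = 1 + ((321151313705157245223762 : ℕ) : K) * ((3999330129571306384578 : ℕ) : K) ^ 3 + ((3999330129571306384578 : ℕ) : K) ^ 4 := by
        have h : ((1 + 321151313705157245223762 * 3999330129571306384578 ^ 3 + 3999330129571306384578 ^ 4 : ℕ) : K) = ((191693331605927678724310 : ℕ) : K) := by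
          rw [show (1 + 321151313705157245223762 * 3999330129571306384578 ^ 3 + 3999330129571306384578 ^ 4 : ℕ) =
            (1 + 321151313705157245223762 * 3999330129571306384578 ^ 3 + 3999330129571306384578 ^ 4) / 816212625221716531199999 * 816212625221716531199999 + 191693331605927678724310 by norm_num, Nat.cast_add, Nat.cast_mul, hM,
            mul_zero, zero_add]
        rw [← h]
        push_cast
        ring
      have hb : ((289577401439254358516875 : ℕ) : K) = -(((3999330129571306384578 : ℕ) : K) ^ 3 + ((321151313705157245223762 : ℕ) : K) * ((3999330129571306384578 : ℕ) : K) ^ 4) := by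
        have h : ((3999330129571306384578 ^ 3 + 321151313705157245223762 * 3999330129571306384578 ^ 4 + 289577401439254358516875 : ℕ) : K) = 0 := by
          rw [show (3999330129571306384578 ^ 3 + 321151313705157245223762 * 3999330129571306384578 ^ 4 + 289577401439254358516875 : ℕ) =
            (3999330129571306384578 ^ 3 + 321151313705157245223762 * 3999330129571306384578 ^ 4 + 289577401439254358516875) / 816212625221716531199999 * 816212625221716531199999 by norm_num, Nat.cast_mul, hM, mul_zero]
        push_cast at h ⊢
        linear_combination h
      rw [ha, hb]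
      ring
    have h3 := q8_fold (by norm_num) hM hw2 (191693331605927678724310, 289577401439254358516875) P3bits (1, 0) 0 (by simp)
    rw [P3bits_num, P3_pow] at h3
    rw [hu, ← h3]
    have e : ((495061311516559285976237 : ℕ) : K) = -((321151313705157245223762 : ℕ) : K) := by
      have h : ((495061311516559285976237 + 321151313705157245223762 : ℕ) : K) = 0 := hM
      rw [Nat.cast_add] at h
      linear_combination h
    rw [e]
    linear_combination (-w - ((321151313705157245223762 : ℕ) : K)) * hw2 - w * hg

end E8T5Q
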