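import Pool.Agent.E8T5.FIN2
import Pool.Agent.E8T5Q.Q8
import Pool.Agent.E8T3.Q3

/-!
# [E8T5Q-Q9] the quintic law in terms of the roots of `x⁵ = 5`, and the results

`f(x) = x² - 5 x + 5`: `f(x)^((p² - 1)/5) x^((p - 1) N) = 1` for all `x` in the field with `p²` elements
with `x⁵ = 5`, for all primes `p ≡ -1 mod 25`.
-/

set_option autoImplicit false

open E8X (tau)

namespace E8T5Q

/-- the law, in the form of the unit `1 + ζ⁴ θ³ - ζ² θ⁴` -/
def Law : Prop := ∀ p : ℕ, p.Prime → 25 ∣ p + 1 → ∀ (K : Type) [Field K], Nat.card K = p ^ 2 →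
  ∀ s θ ζ : K, s ^ 2 = 5 → θ ^ 5 = 5 → θ ^ p = θ → ζ ^ 5 = 1 → ζ ≠ 1 →
    (1 + ζ ^ 4 * θ ^ 3 - ζ ^ 2 * θ ^ 4) ^ ((p ^ 2 - 1) / 5) = ζ ^ (E8T5.Nf p s)

section

variable {K : Type} [Field K] {p : ℕ}

theorem q9_fin (hp : p.Prime) (hK : Nat.card K = p ^ 2) : Finite K :=
  Nat.finite_of_card_ne_zero (by rw [hK]; exact pow_ne_zero _ hp.ne_zero)

theorem q9_char (hp : p.Prime) (hK : Nat.card K = p ^ 2) : CharP K p := by
  have := Fact.mk hp
  have := q9_fin hp hK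
  let _ : Fintype K := Fintype.ofFinite K
  exact charP_of_card_eq_prime_pow (by rw [← Nat.card_eq_fintype_card, hK])

theorem q9_pow (hp : p.Prime) (hK : Nat.card K = p ^ 2) {x : K} (hx : x ≠ 0) : x ^ (p ^ 2 - 1) = 1 := by
  have := q9_fin hp hK
  let _ : Fintype K := Fintype.ofFinite K
  have h := FiniteField.pow_card_sub_one_eq_one x hx
  rwa [← Nat.card_eq_fintype_card, hK] at h

theorem q9_pow' (hp : p.Prime) (hK : Nat.card K = p ^ 2) (x : K) : x ^ (p ^ 2) = x := by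
  have := q9_fin hp hK
  let _ : Fintype K := Fintype.ofFinite K
  have h := FiniteField.pow_card x
  rwa [← Nat.card_eq_fintype_card, hK] at h

theorem q9_nat (hp : p.Prime) (hK : Nat.card K = p ^ 2) (n : ℕ) : (n : K) ^ p = n := by
  have := Fact.mk hp
  have := q9_char hp hK
  have h := map_natCast (frobenius K p) n
  rwa [frobenius_def] at h

theorem q9_five (hp : p.Prime) (h4 : p % 5 = 4) (hK : Nat.card K = p ^ 2) : (5 : K) ≠ 0 := by
  have := q9_char hp hK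
  intro h
  have h5 : ((5 : ℕ) : K) = 0 := by exact_mod_cast h
  rw [CharP.cast_eq_zero_iff K p] at h5
  have := (Nat.prime_dvd_prime_iff_eq hp Nat.prime_five).1 h5
  omega

theorem q9_two (hp : p.Prime) (h4 : p % 5 = 4) (hK : Nat.card K = p ^ 2) : (2 : K) ≠ 0 := by
  have := q9_char hp hK
  intro h
  have h5 : ((2 : ℕ) : K) = 0 := by exact_mod_cast h
  rw [CharP.cast_eq_zero_iff K p] at h5
  have := (Nat.prime_dvd_prime_iff_eq hp Nat.prime_two).1 h5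
  omega

theorem q9_dvd (h4 : p % 5 = 4) : (p ^ 2 - 1) / 5 * 5 = p ^ 2 - 1 ∧ (p ^ 2 - 1) / 5 = (p - 1) * ((p + 1) / 5) := by
  obtain ⟨q, rfl⟩ : ∃ q, p = q + 1 := ⟨p - 1, by omega⟩
  obtain ⟨k, hk⟩ : ∃ k, q + 1 + 1 = 5 * k := ⟨(q + 1 + 1) / 5, by omega⟩
  have h1 : (q + 1) ^ 2 - 1 = 5 * (q * k) := by
    have : (q + 1) ^ 2 = q * (q + 1 + 1) + 1 := by ring
    rw [this, Nat.add_sub_cancel, hk]
    ring
  have h2 : (q + 1 + 1) / 5 = k := by omega
  rw [h1, Nat.mul_div_cancel_left _ (by norm_num), h2, Nat.add_sub_cancel]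
  exact ⟨by ring, rfl⟩

theorem q9_mod (h25 : 25 ∣ p + 1) : p % 5 = 4 := by omega

/-- elements of the prime field are killed -/
theorem q9_fix (hp : p.Prime) (h4 : p % 5 = 4) {x : K} (hx : x ≠ 0) (hf : x ^ p = x) :
    x ^ ((p ^ 2 - 1) / 5) = 1 := by
  have h1 : x ^ (p - 1) = 1 := by
    refine mul_right_cancel₀ hx ?_
    rw [← pow_succ, Nat.sub_add_cancel hp.one_le, hf, one_mul]
  rw [(q9_dvd h4).2, pow_mul, h1, one_pow]

/-- a primitive fifth root of unity is killed -/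
theorem q9_zeta (h25 : 25 ∣ p + 1) {ζ : K} (h : ζ ^ 5 = 1) : ζ ^ ((p ^ 2 - 1) / 5) = 1 := by
  obtain ⟨k, hk⟩ := h25
  have h2 : (p + 1) / 5 = 5 * k := by omega
  rw [(q9_dvd (by omega)).2, h2, show (p - 1) * (5 * k) = 5 * ((p - 1) * k) by ring, pow_mul, h, one_pow]

/-- `s² = 5` has a root -/
theorem q9_s (hp : p.Prime) (h4 : p % 5 = 4) (hK : Nat.card K = p ^ 2) : ∃ s : K, s ^ 2 = 5 := by
  have := Fact.mk hp
  have := q9_char hp hK
  obtain ⟨r, hr⟩ := E8T5.CN.exists_sqrt5 (p := p) (by omega)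
  refine ⟨ZMod.castHom dvd_rfl K r, ?_⟩
  rw [← map_pow, hr]
  exact map_ofNat _ 5

/-- the root in the prime field -/
theorem q9_theta (hp : p.Prime) (h4 : p % 5 = 4) (hK : Nat.card K = p ^ 2) {x : K} (hx : x ^ 5 = 5) :
    (5 / x ^ (2 * (p + 1))) ^ 5 = 5 ∧ (5 / x ^ (2 * (p + 1))) ^ p = 5 / x ^ (2 * (p + 1)) := by
  have h5 := q9_five hp h4 hK
  have hx0 : x ≠ 0 := by
    rintro rfl
    apply h5
    rw [← hx, zero_pow (by norm_num)]
  have h5p : (5 : K) ^ p = 5 := by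
    have h := q9_nat hp hK 5
    exact_mod_cast h
  constructor
  · rw [div_pow, ← pow_mul, show 2 * (p + 1) * 5 = 5 * (2 * (p + 1)) by ring, pow_mul x, hx,
      show 2 * (p + 1) = p * 2 + 2 by ring, pow_add, pow_mul, h5p]
    field_simp
  · rw [div_pow, h5p, ← pow_mul, show 2 * (p + 1) * p = p ^ 2 * 2 + p * 2 by ring, pow_add, pow_mul,
      q9_pow' hp hK, show 2 * (p + 1) = 2 + p * 2 by ring, pow_add]

theorem q9_f_ne (hp : p.Prime) (h4 : p % 5 = 4) (hK : Nat.card K = p ^ 2) {x : K} (hx : x ^ 5 = 5) :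
    x ^ 2 - 5 * x + 5 ≠ 0 := by
  intro h
  have h5 := q9_five hp h4 hK
  have h2 := q9_two hp h4 hK
  -- `x⁵ = 275 x - 375` modulo `f`
  have h3 : (55 : K) * (5 * x) = 76 * 5 := by
    linear_combination hx - (x ^ 3 + 5 * x ^ 2 + 20 * x + 75) * h
  have h4 : (55 : K) * x = 76 := by
    refine mul_left_cancel₀ h5 ?_
    linear_combination h3
  have h6 : (1 : K) = 0 := by
    linear_combination (55 ^ 2 : K) * h - (55 * x - 199) * h4
  exact one_ne_zero h6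


/-- **the quintic law** in terms of the roots of `x⁵ = 5` -/
theorem q9_law (H : Law) (hp : p.Prime) (h25 : 25 ∣ p + 1) (hK : Nat.card K = p ^ 2) {s x : K}
    (hs : s ^ 2 = 5) (hx : x ^ 5 = 5) :
    (x ^ 2 - 5 * x + 5) ^ ((p ^ 2 - 1) / 5) * x ^ ((p - 1) * E8T5.Nf p s) = 1 := by
  have h5 := q9_five hp (q9_mod h25) hK
  have hx0 : x ≠ 0 := by
    rintro rfl
    apply h5
    rw [← hx, zero_pow (by norm_num)]
  have hf0 := q9_f_ne hp (q9_mod h25) hK hx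
  obtain ⟨θ, hθ⟩ : ∃ θ, θ = 5 / x ^ (2 * (p + 1)) := ⟨_, rfl⟩
  obtain ⟨t5, tp⟩ := q9_theta hp (q9_mod h25) hK hx
  rw [← hθ] at t5 tp
  have hθ0 : θ ≠ 0 := by
    rintro rfl
    apply h5
    rw [← t5, zero_pow (by norm_num)]
  have h5p : (5 : K) ^ p = 5 := by
    have h := q9_nat hp hK 5
    exact_mod_cast h
  have hsub : ∀ a b : K, (a - b) ^ p = a ^ p - b ^ p := by
    intro a b
    have := Fact.mk hp
    have := q9_char hp hK
    exact sub_pow_char a b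
  have hadd : ∀ a b : K, (a + b) ^ p = a ^ p + b ^ p := by
    intro a b
    have := Fact.mk hp
    have := q9_char hp hK
    exact add_pow_char a b p
  by_cases hfx : x ^ p = x
  · -- `x` in the prime field
    have h1 : x ^ (p - 1) = 1 := by
      refine mul_right_cancel₀ hx0 ?_
      rw [← pow_succ, Nat.sub_add_cancel hp.one_le, hfx, one_mul]
    rw [pow_mul, h1, one_pow, mul_one]
    refine q9_fix hp (q9_mod h25) hf0 ?_
    rw [hadd, hsub, mul_pow, h5p, ← pow_mul, mul_comm 2 p, pow_mul, hfx]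
  · obtain ⟨ζ, hζ⟩ : ∃ ζ, ζ = (x / θ) ^ 2 := ⟨_, rfl⟩
    have z5 : ζ ^ 5 = 1 := by
      rw [hζ, ← pow_mul, mul_comm, pow_mul, div_pow, hx, t5, div_self h5, one_pow]
    have z1 : ζ ≠ 1 := by
      intro h
      apply hfx
      have h1 : (x / θ) ^ 5 = 1 := by rw [div_pow, hx, t5, div_self h5]
      have h2 : x / θ = 1 := by
        calc x / θ = (x / θ) ^ 5 / ((x / θ) ^ 2) ^ 2 := by
              field_simp
          _ = 1 := by rw [h1, ← hζ, h]; norm_num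
      have h3 : x = θ := by
        rw [div_eq_one_iff_eq hθ0] at h2
        exact h2
      rw [h3, tp]
    have hl := H p hp h25 K hK s θ ζ hs t5 tp z5 z1
    have hz0 : ζ ≠ 0 := by
      rintro rfl
      rw [zero_pow (by norm_num)] at z5
      exact zero_ne_one z5
    -- `x = ζ³ θ`
    have hxz : x = ζ ^ 3 * θ := by
      have h1 : (x / θ) ^ 5 = 1 := by rw [div_pow, hx, t5, div_self h5]
      have h2 : x / θ = ζ ^ 3 := by
        rw [hζ]
        calc x / θ = (x / θ) ^ 5 * (x / θ) := by rw [h1, one_mul]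
          _ = ((x / θ) ^ 2) ^ 3 := by ring
      rw [← h2, div_mul_cancel₀ _ hθ0]
    have hu : θ ^ 2 * (1 + ζ ^ 4 * θ ^ 3 - ζ ^ 2 * θ ^ 4) = ζ ^ 4 * (x ^ 2 - 5 * x + 5) := by
      rw [hxz]
      linear_combination (ζ ^ 4 - ζ ^ 2 * θ) * t5 + (5 * ζ ^ 2 * θ - (ζ ^ 5 + 1) * θ ^ 2) * z5
    have ha : (θ ^ 2) ^ ((p ^ 2 - 1) / 5) = 1 := by
      refine q9_fix hp (q9_mod h25) (pow_ne_zero 2 hθ0) ?_
      rw [← pow_mul, mul_comm 2 p, pow_mul, tp]
    have hb : (ζ ^ 4) ^ ((p ^ 2 - 1) / 5) = 1 := by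
      rw [← pow_mul, mul_comm, pow_mul, q9_zeta h25 z5, one_pow]
    have hc : (θ ^ 2 * (1 + ζ ^ 4 * θ ^ 3 - ζ ^ 2 * θ ^ 4)) ^ ((p ^ 2 - 1) / 5) =
        (ζ ^ 4 * (x ^ 2 - 5 * x + 5)) ^ ((p ^ 2 - 1) / 5) := by rw [hu]
    rw [mul_pow, mul_pow, ha, hb, one_mul, one_mul] at hc
    rw [← hc, hl]
    -- `x^(p-1) = ζ⁴`
    have hd : x ^ (p - 1) = ζ ^ 4 := by
      refine mul_right_cancel₀ hx0 ?_
      rw [← pow_succ, Nat.sub_add_cancel hp.one_le]
      conv_lhs => rw [hxz]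
      rw [mul_pow, tp]
      obtain ⟨k, hk⟩ := h25
      have hzp : ζ ^ (p + 1) = 1 := by
        rw [hk, show 25 * k = 5 * (5 * k) by ring, pow_mul, z5, one_pow]
      have hzp' : ζ ^ p = ζ ^ 4 := by
        refine mul_right_cancel₀ hz0 ?_
        rw [← pow_succ, hzp, ← pow_succ, z5]
      rw [← pow_mul, mul_comm 3 p, pow_mul, hzp', hxz]
      linear_combination (ζ ^ 7 * θ) * z5
    rw [pow_mul, hd, ← pow_mul, ← pow_add, show E8T5.Nf p s + 4 * E8T5.Nf p s = 5 * E8T5.Nf p s by ring,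
      pow_mul, z5, one_pow]

end

end E8T5Q
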